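import Mathlib
import Pool.Agent.Helper47.Generic

set_option autoImplicit false

namespace Pool.Agent.Results.MP_064e41_al.DivisionCounterexamples

open Pool.Agent.Helper47

/-- Negative answer to Q1, for all `p` and `m` at once: whenever `p` is prime, `m ≥ 1`,
`2 ≤ r ≤ p - 1` and `r` does not divide `p - 1` (for instance `p = 5`, `r = 3`), there are a field
`F` of characteristic zero, a central division `F`-algebra `A` of degree `p ^ m` with reduced trace
`T`, and an `F`-subspace `V` of `A` with `T (v ^ r) = 0` for all `v ∈ V` whose dimension exceeds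
`⌊(p ^ (2 m) - 1) / r⌋`. -/
theorem result (p m r : ℕ) (hp : p.Prime) (hm : 1 ≤ m) (hr : 2 ≤ r) (hrp : r ≤ p - 1)
    (hd : ¬ r ∣ p - 1) :
    ∃ (F : Type) (_ : Field F) (_ : CharZero F) (A : Type) (_ : DivisionRing A) (_ : Algebra F A)
      (_ : Algebra.IsCentral F A) (T : A →ₗ[F] F) (V : Submodule F A),
      Module.finrank F A = (p ^ m) ^ 2 ∧ IsReducedTrace T ∧ IsTraceVanishing r T V ∧
        (p ^ (2 * m) - 1) / r < Module.finrank F V := by
  have : NeZero p := ⟨hp.ne_zero⟩
  have hω := Complex.isPrimitiveRoot_exp p hp.ne_zero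
  set ω := Complex.exp (2 * Real.pi * Complex.I / p) with hωdef
  have : CharZero (GenericField ℂ m) :=
    charZero_of_injective_algebraMap (algebraMap ℂ (GenericField ℂ m)).injective
  have : IsDomain (GTensor ℂ (GenericField ℂ m) p m ω) :=
    Generic.isDomain ℂ (GenericField ℂ m) p m ω hω.pow_eq_one
  have : FiniteDimensional (GenericField ℂ m) (GTensor ℂ (GenericField ℂ m) p m ω) :=
    Module.Finite.of_basis (Generic.gB ℂ (GenericField ℂ m) p m ω hω.pow_eq_one)
  have hT := (Generic.isReducedTrace_iff ℂ (GenericField ℂ m) p m ω hω hp.two_le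
    (Generic.rtr ℂ (GenericField ℂ m) p m ω hω.pow_eq_one)).2 rfl
  obtain ⟨V, hV, hdim⟩ := generic_large ℂ (GenericField ℂ m) hp hm hω hr hrp hd _ hT
  refine ⟨GenericField ℂ m, inferInstance, inferInstance, GTensor ℂ (GenericField ℂ m) p m ω,
    divisionRingOfFiniteDimensional (GenericField ℂ m) (GTensor ℂ (GenericField ℂ m) p m ω),
    inferInstance, Generic.isCentral ℂ (GenericField ℂ m) p m ω hω hp.two_le,
    Generic.rtr ℂ (GenericField ℂ m) p m ω hω.pow_eq_one, V, ?_, hT, hV, hdim⟩
  have h1 := Generic.finrank_eq ℂ (GenericField ℂ m) p m ω hω.pow_eq_one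
  rw [← pow_mul, mul_comm m 2]
  exact h1

end Pool.Agent.Results.MP_064e41_al.DivisionCounterexamples
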