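import Mathlib
import Pool.Agent.Helper47.Generic

set_option autoImplicit false

namespace Pool.Agent.Results.MP_064e41_al.GenericBoundIff

open Pool.Agent.Helper47

universe u

/-- Complete answer to Q2. Let `p` be an odd prime, `m ≥ 1`, `2 ≤ r ≤ p - 1`, let `k` be a field of
characteristic `0` or at least `p` with a primitive `p`-th root of unity `ω`, and let
`F = k(α, β)` be the rational function field in `2 m` indeterminates. The generic tensor
product of `m` symbol algebras of degree `p` over `F` has exactly one reduced trace `T`, and the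
bound `dim V ≤ ⌊(p ^ (2 m) - 1) / r⌋` holds for all subspaces `V` on which `T (v ^ r)` vanishes
if and only if `r` divides `p - 1`. -/
theorem result (k : Type u) [Field k] (p m r : ℕ)
    (hp : p.Prime) (_hp2 : p ≠ 2) (hm : 1 ≤ m) (hr : 2 ≤ r) (hrp : r ≤ p - 1)
    (hk : ringChar k = 0 ∨ p ≤ ringChar k) (ω : k) (hω : IsPrimitiveRoot ω p) :
    (∃! T : GenericSymbolTensor k p m ω →ₗ[GenericField k m] GenericField k m,
      IsReducedTrace T) ∧
    ∀ T : GenericSymbolTensor k p m ω →ₗ[GenericField k m] GenericField k m,
      IsReducedTrace T →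
      ((∀ V : Submodule (GenericField k m) (GenericSymbolTensor k p m ω),
        IsTraceVanishing r T V →
          Module.finrank (GenericField k m) V ≤ (p ^ (2 * m) - 1) / r) ↔ r ∣ p - 1) :=
  ⟨existsUnique_reducedTrace k m hp hω,
    fun T hT => generic_bound_iff k hp hm hω hk hr hrp T hT⟩

end Pool.Agent.Results.MP_064e41_al.GenericBoundIff
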